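import Pool.Agent.U818.PC.Loc

/-!
Continuation of an oval in a convex domain.
-/

set_option autoImplicit false

open Complex Set Metric Filter Topology

namespace Pool.Agent.U818.PC

open H719FX H738CZ

/-- all places of the continuations of the oval along chains of discs are regular -/
def Con (γ : ℝ → ℂ) : Prop :=
  ∀ (n : ℕ) (a : ℕ → ℂ) (r : ℕ → ℝ) (Z W : ℕ → ℂ → ℂ), Chain2 n a r Z W →
  ∀ (θ : ℝ → ℝ) (x0 x1 : ℝ), ContinuousOn θ (Ioo x0 x1) →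
  (∀ t ∈ Ioo x0 x1, (t : ℂ) ∈ Metric.ball (a 0) (r 0) ∧ Z 0 t = γ (θ t) ∧
    W 0 t = (starRingEnd ℂ) (γ (θ t))) →
  (∃ s ∈ Ioo x0 x1, ∃ t ∈ Ioo x0 x1, γ (θ s) ≠ γ (θ t)) →
    ∀ t0 ∈ Metric.ball (a n) (r n),
      (¬ ∀ᶠ t in 𝓝 t0, Wr (Z n) (W n) t = 0) ∧ Reg (Z n) (W n) t0

theorem conv_reg {γ : ℝ → ℂ} (hC : Con γ) {T : Set ℂ} (hT : Convex ℝ T) (hTo : IsOpen T)
    {Z W : ℂ → ℂ} (hZd : DifferentiableOn ℂ Z T) (hWd : DifferentiableOn ℂ W T) {θ : ℝ → ℝ}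
    {x0 x1 : ℝ} (hθ : ContinuousOn θ (Ioo x0 x1))
    (hJ : ∀ t ∈ Ioo x0 x1, (t : ℂ) ∈ T ∧ Z t = γ (θ t) ∧ W t = (starRingEnd ℂ) (γ (θ t)))
    {c : ℝ} (hc : c ∈ Ioo x0 x1) (hc' : deriv Z c ≠ 0) {t0 : ℂ} (ht0 : t0 ∈ T) :
    Reg Z W t0 := by
  have hcT : (c : ℂ) ∈ T := (hJ c hc).1
  have hseg : segment ℝ (c : ℂ) t0 ⊆ T := hT.segment_subset hcT ht0
  have hcomp : IsCompact (segment ℝ (c : ℂ) t0) := by
    rw [segment_eq_image_lineMap]
    exact isCompact_Icc.image AffineMap.lineMap_continuous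
  obtain ⟨δ, hδ, hthick⟩ := hcomp.exists_thickening_subset_open hTo hseg
  obtain ⟨M, hM⟩ := exists_nat_gt (‖t0 - c‖ / δ)
  have hM0 : 0 < (M : ℝ) := lt_of_le_of_lt (by positivity) hM
  obtain ⟨a, ha⟩ : ∃ a : ℕ → ℂ, ∀ j, a j = c + (((j : ℝ) / M : ℝ) : ℂ) * (t0 - c) :=
    ⟨_, fun _ => rfl⟩
  have ha0 : a 0 = c := by rw [ha]; simp
  have haM : a M = t0 := by
    rw [ha, div_self hM0.ne']
    simp
  have hamem : ∀ j ≤ M, a j ∈ segment ℝ (c : ℂ) t0 := by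
    intro j hj
    rw [segment_eq_image']
    refine ⟨(j : ℝ) / M, ⟨by positivity, ?_⟩, ?_⟩
    · rw [div_le_one hM0]; exact_mod_cast hj
    · rw [ha]
      simp [Complex.real_smul]
  have hball : ∀ j ≤ M, ball (a j) δ ⊆ T := fun j hj z hz =>
    hthick (mem_thickening_iff.2 ⟨a j, hamem j hj, hz⟩)
  have hstep : ∀ j, ‖a (j + 1) - a j‖ < δ := by
    intro j
    have e1 : a (j + 1) - a j = ((1 / M : ℝ) : ℂ) * (t0 - c) := by
      rw [ha, ha]
      push_cast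
      field_simp
      ring
    rw [e1, norm_mul, Complex.norm_real, Real.norm_of_nonneg (by positivity)]
    rw [div_lt_iff₀ hδ] at hM
    rw [div_mul_eq_mul_div, one_mul, div_lt_iff₀ hM0]
    linarith [mul_comm (M : ℝ) δ]
  obtain ⟨η, hη, hη1, hη2⟩ : ∃ η : ℝ, 0 < η ∧ η ≤ δ ∧ Ioo (c - η) (c + η) ⊆ Ioo x0 x1 := by
    refine ⟨min δ (min (c - x0) (x1 - c)), lt_min hδ (lt_min (by linarith [hc.1])
      (by linarith [hc.2])), min_le_left _ _, fun x hx => ?_⟩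
    have h1 : min δ (min (c - x0) (x1 - c)) ≤ c - x0 :=
      (min_le_right _ _).trans (min_le_left _ _)
    have h2 : min δ (min (c - x0) (x1 - c)) ≤ x1 - c :=
      (min_le_right _ _).trans (min_le_right _ _)
    exact ⟨by linarith [hx.1], by linarith [hx.2]⟩
  have hcη : c ∈ Ioo (c - η) (c + η) := ⟨by linarith, by linarith⟩
  have key := hC M a (fun _ => δ) (fun _ => Z) (fun _ => W)
    ⟨fun i hi => hZd.mono (hball i hi), fun i hi => hWd.mono (hball i hi), fun i hi => ?_,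
      fun i hi z _ => rfl, fun i hi z _ => rfl⟩ θ (c - η) (c + η) (hθ.mono hη2) ?_ ?_ t0 ?_
  · exact key.2
  · refine ⟨a i, mem_ball_self hδ, ?_⟩
    rw [mem_ball, dist_comm, dist_eq_norm]
    exact hstep i
  · intro t ht
    obtain ⟨h1, h2, h3⟩ := hJ t (hη2 ht)
    refine ⟨?_, h2, h3⟩
    show (t : ℂ) ∈ ball (a 0) δ
    rw [ha0, mem_ball, dist_eq_norm, ← ofReal_sub, Complex.norm_real, Real.norm_eq_abs, abs_lt]
    exact ⟨by linarith [ht.1], by linarith [ht.2]⟩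
  · by_contra hcon
    push Not at hcon
    have h1 : (fun x : ℝ => Z x) =ᶠ[𝓝 c] fun _ => Z c := by
      filter_upwards [isOpen_Ioo.mem_nhds hcη] with x hx
      rw [(hJ x (hη2 hx)).2.1, (hJ c hc).2.1]
      exact hcon x hx c hcη
    have h2 : HasDerivAt (fun x : ℝ => Z x) (deriv Z c) c :=
      ((hZd.differentiableAt (hTo.mem_nhds hcT)).hasDerivAt).comp_ofReal
    have h3 : HasDerivAt (fun x : ℝ => Z x) 0 c :=
      (hasDerivAt_const c (Z c)).congr_of_eventuallyEq h1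
    exact hc' (h2.unique h3)
  · show t0 ∈ ball (a M) δ
    rw [haM]
    exact mem_ball_self hδ

/-- Let `Θ` and `v` be analytic in a convex domain `T`, let `Θ` be real and `v = ρ(Θ) Θ'` on a
real interval.  Then `v = g(Θ) Θ'` near every point of `T` with an analytic `g` without zero. -/
theorem place {γ : ℝ → ℂ} {ρ : ℝ → ℝ} (hO : IsOval γ ρ) (hC : Con γ) {T : Set ℂ}
    (hT : Convex ℝ T) (hTo : IsOpen T) {Θ v : ℂ → ℂ} (hΘ : DifferentiableOn ℂ Θ T)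
    (hv : DifferentiableOn ℂ v T) {x0 x1 : ℝ}
    (hJ : ∀ t ∈ Ioo x0 x1, (t : ℂ) ∈ T ∧ (Θ t).im = 0 ∧ v t = ρ (Θ t).re * deriv Θ t)
    (hnc : ∃ c ∈ Ioo x0 x1, deriv Θ c ≠ 0) {t0 : ℂ} (ht0 : t0 ∈ T) :
    ∃ g : ℂ → ℂ, AnalyticAt ℂ g (Θ t0) ∧ g (Θ t0) ≠ 0 ∧
      ∀ᶠ t in 𝓝 t0, v t = g (Θ t) * deriv Θ t := by
  obtain ⟨c, hc, hc'⟩ := hnc
  have hcT : (c : ℂ) ∈ T := (hJ c hc).1
  have hΘ' : ∀ z ∈ T, HasDerivAt Θ (deriv Θ z) z := fun z hz =>
    (hΘ.differentiableAt (hTo.mem_nhds hz)).hasDerivAt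
  have hd1 : DifferentiableOn ℂ (fun t => I * v t * cexp (Θ t * I)) T :=
    (hv.const_mul I).mul (hΘ.mul_const I).cexp
  have hd2 : DifferentiableOn ℂ (fun t => -(I * v t * cexp (-(Θ t * I)))) T :=
    ((hv.const_mul I).mul (hΘ.mul_const I).neg.cexp).neg
  obtain ⟨Z0, hZ0⟩ := hT.exists_forall_hasDerivWithinAt hd1
  obtain ⟨W0, hW0⟩ := hT.exists_forall_hasDerivWithinAt hd2
  obtain ⟨θ, hθ⟩ : ∃ θ : ℝ → ℝ, ∀ t, θ t = (Θ t).re := ⟨_, fun _ => rfl⟩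
  set Z : ℂ → ℂ := fun t => Z0 t - Z0 c + γ (θ c) with hZ
  set W : ℂ → ℂ := fun t => W0 t - W0 c + (starRingEnd ℂ) (γ (θ c)) with hW
  have hZd : ∀ z ∈ T, HasDerivAt Z (I * v z * cexp (Θ z * I)) z := fun z hz =>
    (((hZ0 z hz).hasDerivAt (hTo.mem_nhds hz)).sub_const _).add_const _
  have hWd : ∀ z ∈ T, HasDerivAt W (-(I * v z * cexp (-(Θ z * I)))) z := fun z hz =>
    (((hW0 z hz).hasDerivAt (hTo.mem_nhds hz)).sub_const _).add_const _
  -- on the real interval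
  have hre : ∀ t ∈ Ioo x0 x1, HasDerivAt θ (deriv Θ t).re t := by
    intro t ht
    have h1 := (hΘ' t (hJ t ht).1).comp_ofReal
    have h2 : HasDerivAt (fun t : ℝ => (Θ t).re) (deriv Θ t).re t :=
      Complex.reCLM.hasFDerivAt.comp_hasDerivAt t h1
    have h3 : θ = fun t : ℝ => (Θ t).re := funext hθ
    rw [h3]
    exact h2
  have him : ∀ t ∈ Ioo x0 x1, ((deriv Θ t).re : ℂ) = deriv Θ t := by
    intro t ht
    have h1 := (hΘ' t (hJ t ht).1).comp_ofReal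
    have h2 : HasDerivAt (fun t : ℝ => (Θ t).im) (deriv Θ t).im t :=
      Complex.imCLM.hasFDerivAt.comp_hasDerivAt t h1
    have h3 : (fun t : ℝ => (Θ t).im) =ᶠ[𝓝 t] fun _ => 0 := by
      filter_upwards [isOpen_Ioo.mem_nhds ht] with x hx using (hJ x hx).2.1
    have h4 : (deriv Θ t).im = 0 :=
      h2.unique ((hasDerivAt_const t (0 : ℝ)).congr_of_eventuallyEq h3)
    apply Complex.ext <;> simp [h4]
  have hθΘ : ∀ t ∈ Ioo x0 x1, (θ t : ℂ) = Θ t := by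
    intro t ht
    rw [hθ]
    apply Complex.ext <;> simp [(hJ t ht).2.1]
  have hγθ : ∀ t ∈ Ioo x0 x1,
      HasDerivAt (fun t : ℝ => γ (θ t)) (I * v t * cexp (Θ t * I)) t := by
    intro t ht
    refine ((hO.der (θ t)).scomp t (hre t ht)).congr_deriv ?_
    rw [(hJ t ht).2.2, ← hθΘ t ht, Complex.real_smul, him t ht, hθΘ t ht, hθ t]
    ring
  have hγW : ∀ t ∈ Ioo x0 x1, HasDerivAt (fun t : ℝ => (starRingEnd ℂ) (γ (θ t)))
      (-(I * v t * cexp (-(Θ t * I)))) t := by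
    intro t ht
    have h1 : HasDerivAt (fun t : ℝ => (starRingEnd ℂ) (γ (θ t)))
        ((starRingEnd ℂ) (I * v t * cexp (Θ t * I))) t :=
      Complex.conjCLE.hasFDerivAt.comp_hasDerivAt t (hγθ t ht)
    refine h1.congr_deriv ?_
    rw [(hJ t ht).2.2, ← him t ht, ← hθΘ t ht]
    simp only [map_mul, conj_I, conj_ofReal, ← Complex.exp_conj]
    have : -((θ t : ℂ) * I) = (θ t : ℂ) * -I := by ring
    rw [this]
    ring
  have hEq : ∀ (f g : ℝ → ℂ) (f' : ℝ → ℂ), (∀ t ∈ Ioo x0 x1, HasDerivAt f (f' t) t) →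
      (∀ t ∈ Ioo x0 x1, HasDerivAt g (f' t) t) → f c = g c → ∀ t ∈ Ioo x0 x1, f t = g t := by
    intro f g f' hf hg h0 t ht
    have h1 : ∀ x ∈ Ioo x0 x1, HasDerivAt (fun x => f x - g x) 0 x := fun x hx => by
      simpa using (hf x hx).fun_sub (hg x hx)
    have h2 : f t - g t = f c - g c :=
      isOpen_Ioo.is_const_of_deriv_eq_zero isPreconnected_Ioo (𝕜 := ℝ) (f := fun x => f x - g x)
        (fun x hx => (h1 x hx).differentiableAt.differentiableWithinAt)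
        (fun x hx => (h1 x hx).deriv) ht hc
    rw [h0, sub_self] at h2
    exact sub_eq_zero.1 h2
  have hZγ : ∀ t ∈ Ioo x0 x1, Z t = γ (θ t) :=
    hEq (fun t => Z t) (fun t => γ (θ t)) (fun t => I * v t * cexp (Θ t * I))
      (fun t ht => (hZd t (hJ t ht).1).comp_ofReal) hγθ (by simp [hZ])
  have hWγ : ∀ t ∈ Ioo x0 x1, W t = (starRingEnd ℂ) (γ (θ t)) :=
    hEq (fun t => W t) (fun t => (starRingEnd ℂ) (γ (θ t)))
      (fun t => -(I * v t * cexp (-(Θ t * I))))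
      (fun t ht => (hWd t (hJ t ht).1).comp_ofReal) hγW (by simp [hW])
  have hvc : v c ≠ 0 := by
    rw [(hJ c hc).2.2]
    exact mul_ne_zero (by exact_mod_cast (hO.pos _).ne') hc'
  have hR : Reg Z W t0 := by
    refine conv_reg hC hT hTo (fun z hz => (hZd z hz).differentiableAt.differentiableWithinAt)
      (fun z hz => (hWd z hz).differentiableAt.differentiableWithinAt)
      (fun t ht => (hre t ht).continuousAt.continuousWithinAt)
      (fun t ht => ⟨(hJ t ht).1, hZγ t ht, hWγ t ht⟩) hc ?_ ht0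
    rw [(hZd c hcT).deriv]
    exact mul_ne_zero (mul_ne_zero I_ne_zero hvc) (Complex.exp_ne_zero _)
  refine loc (hΘ.analyticAt (hTo.mem_nhds ht0))
    (by filter_upwards [hTo.mem_nhds ht0] with z hz using hZd z hz)
    (by filter_upwards [hTo.mem_nhds ht0] with z hz using hWd z hz) (fun h0 => ?_) hR
  have ha : AnalyticOnNhd ℂ v T := fun z hz => hv.analyticAt (hTo.mem_nhds hz)
  exact hvc (ha.eqOn_zero_of_preconnected_of_eventuallyEq_zero hT.isPreconnected ht0 h0 hcT)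

end Pool.Agent.U818.PC
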