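import Pool.Agent.U818.PC.Conv

/-!
Factorisation of entire functions at a point and roots on convex domains.
-/

set_option autoImplicit false

open Complex Set Metric Filter Topology

namespace Pool.Agent.U818.PC

lemma countable_zeros (f : ℂ → ℂ) (hf : Differentiable ℂ f) (x : ℂ) (hx : f x ≠ 0) :
    {z | f z = 0}.Countable := by
  have h1 : AnalyticOnNhd ℂ f Set.univ := fun z _ => hf.analyticAt z
  have h2 := h1.preimage_zero_mem_codiscrete hx
  have h3 : ({z | f z = 0})ᶜ ∈ codiscrete ℂ := h2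
  rw [compl_mem_codiscrete_iff] at h3
  have hd : DiscreteTopology ({z | f z = 0} : Set ℂ) := h3.2.to_subtype
  exact (Set.countable_coe_iff).1 (TopologicalSpace.separableSpace_iff_countable.1 inferInstance)

/-- an entire function of order `n` at `z0` is `(z - z0)^n` times an entire function which does not
vanish at `z0` -/
lemma fac {f : ℂ → ℂ} (hf : Differentiable ℂ f) {z0 : ℂ} {n : ℕ}
    (h : analyticOrderAt f z0 = n) :
    ∃ f1 : ℂ → ℂ, Differentiable ℂ f1 ∧ f1 z0 ≠ 0 ∧ ∀ z, f z = (z - z0) ^ n * f1 z := by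
  obtain ⟨g, hg, hg0, hgf⟩ := ((hf.analyticAt z0).analyticOrderAt_eq_natCast).1 h
  obtain ⟨P, hP, hPf, hPu⟩ := Pool.Agent.W743.BE.glue (F := f) (G := fun z => (z - z0) ^ n)
    (fun t => (analyticAt_id.fun_sub analyticAt_const).fun_pow n) (fun t ht => by
      have h1 : ∀ᶠ s in 𝓝[≠] t, s ≠ z0 := by
        rcases eq_or_ne t z0 with rfl | hne
        · exact self_mem_nhdsWithin
        · exact (continuousAt_id.eventually_ne hne).filter_mono nhdsWithin_le_nhds
      obtain ⟨s, h2, h3⟩ := ((ht.filter_mono nhdsWithin_le_nhds).and h1).exists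
      exact pow_ne_zero n (sub_ne_zero.2 h3) h2) (fun t => by
      rcases eq_or_ne t z0 with rfl | hne
      · exact ⟨g, hg, by
          filter_upwards [hgf] with s hs
          rw [hs, smul_eq_mul, mul_comm]⟩
      · refine ⟨fun z => f z / (z - z0) ^ n, (hf.analyticAt t).fun_div
          ((analyticAt_id.fun_sub analyticAt_const).fun_pow n)
          (pow_ne_zero n (sub_ne_zero.2 hne)), ?_⟩
        filter_upwards [continuousAt_id.eventually_ne hne] with s hs
        rw [div_mul_cancel₀]
        exact pow_ne_zero n (sub_ne_zero.2 hs))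
  refine ⟨P, hP, ?_, fun z => by rw [hPf z, mul_comm]⟩
  rw [(hPu z0 g hg (by
    filter_upwards [hgf] with s hs
    rw [hs, smul_eq_mul, mul_comm])).self_of_nhds]
  exact hg0

/-- roots of functions without zeros on convex domains -/
lemma root_conv {T : Set ℂ} (hT : Convex ℝ T) (hTo : IsOpen T) {u : ℂ → ℂ}
    (hu : DifferentiableOn ℂ u T) (hu0 : ∀ z ∈ T, u z ≠ 0) {N : ℕ} (hN : N ≠ 0) :
    ∃ r : ℂ → ℂ, DifferentiableOn ℂ r T ∧ ∀ z ∈ T, r z ^ N = u z := by
  rcases T.eq_empty_or_nonempty with rfl | ⟨z1, hz1⟩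
  · exact ⟨u, hu, fun z hz => absurd hz (Set.notMem_empty z)⟩
  have hud : DifferentiableOn ℂ (deriv u) T := hu.deriv hTo
  obtain ⟨L, hL⟩ := hT.exists_forall_hasDerivWithinAt (f := fun z => deriv u z / u z)
    (hud.div hu hu0)
  have hL' : ∀ z ∈ T, HasDerivAt L (deriv u z / u z) z := fun z hz =>
    (hL z hz).hasDerivAt (hTo.mem_nhds hz)
  have hu' : ∀ z ∈ T, HasDerivAt u (deriv u z) z := fun z hz =>
    (hu.differentiableAt (hTo.mem_nhds hz)).hasDerivAt
  have hE : ∀ z ∈ T, HasDerivAt (fun z => u z * cexp (-L z)) 0 z := by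
    intro z hz
    refine ((hu' z hz).mul (hL' z hz).neg.cexp).congr_deriv ?_
    have h1 := hu0 z hz
    field_simp
    ring
  have hc : ∀ z ∈ T, u z * cexp (-L z) = u z1 * cexp (-L z1) := fun z hz =>
    hTo.is_const_of_deriv_eq_zero hT.isPreconnected (f := fun z => u z * cexp (-L z))
      (fun x hx => (hE x hx).differentiableAt.differentiableWithinAt)
      (fun x hx => (hE x hx).deriv) hz hz1
  have hk : u z1 * cexp (-L z1) ≠ 0 := mul_ne_zero (hu0 z1 hz1) (Complex.exp_ne_zero _)
  have hN' : (N : ℂ) ≠ 0 := by exact_mod_cast hN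
  refine ⟨fun z => cexp ((Complex.log (u z1 * cexp (-L z1)) + L z) / N), ?_, fun z hz => ?_⟩
  · intro z hz
    exact ((((hL' z hz).const_add _).div_const _).cexp).differentiableAt.differentiableWithinAt
  · rw [← Complex.exp_nat_mul, mul_div_cancel₀ _ hN', Complex.exp_add, Complex.exp_log hk,
      ← hc z hz, mul_assoc, ← Complex.exp_add, neg_add_cancel, Complex.exp_zero, mul_one]

end Pool.Agent.U818.PC
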