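import Pool.Agent.U818.PC.Rad

/-!
Integrable ovals one of whose powers of the radius of curvature is meromorphic.
-/

set_option autoImplicit false

open Complex Set Metric Filter Topology

namespace Pool.Agent.U818.PC

open H719FX H738CZ

lemma order_ne_top {f : ℂ → ℂ} (hf : Differentiable ℂ f) (h0 : ∃ z, f z ≠ 0) (z : ℂ) :
    ∃ n : ℕ, analyticOrderAt f z = n := by
  obtain ⟨x, hx⟩ := h0
  have h1 : analyticOrderAt f z ≠ ⊤ := by
    intro h
    rw [analyticOrderAt_eq_top] at h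
    have ha : AnalyticOnNhd ℂ f univ := fun z _ => hf.analyticAt z
    exact hx (ha.eqOn_zero_of_preconnected_of_eventuallyEq_zero isPreconnected_univ
      (mem_univ z) h (mem_univ x))
  exact ⟨(analyticOrderAt f z).toNat, (ENat.natCast_toNat h1).symm⟩

lemma real_ne {f : ℂ → ℂ} (hf : Differentiable ℂ f) (h0 : ∃ z, f z ≠ 0) :
    ∃ x : ℝ, f x ≠ 0 := by
  by_contra hcon
  push Not at hcon
  obtain ⟨z, hz⟩ := h0
  exact hz (Pool.Agent.TH242.MK.eq_of_real hf (differentiable_const (0 : ℂ)) hcon z)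

/-- real points -/
lemma orders_real {ρ : ℝ → ℝ} (hρ : Continuous ρ) (hpos : ∀ x, 0 < ρ x) {N : ℕ} {P Q : ℂ → ℂ}
    (hP : Differentiable ℂ P) (hQ : Differentiable ℂ Q)
    (h : ∀ x : ℝ, Q x * (ρ x : ℂ) ^ N = P x) {x : ℝ} {p q : ℕ}
    (hp : analyticOrderAt P x = p) (hq : analyticOrderAt Q x = q) : p = q := by
  obtain ⟨P1, hP1, hP10, hP1f⟩ := fac hP hp
  obtain ⟨Q1, hQ1, hQ10, hQ1f⟩ := fac hQ hq
  have hρN : ((ρ x : ℂ)) ^ N ≠ 0 := pow_ne_zero N (by exact_mod_cast (hpos x).ne')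
  have hlim : ∀ f g : ℝ → ℂ, Continuous f → Continuous g → (∀ s, s ≠ x → f s = g s) →
      f x = g x := by
    intro f g hf hg hfg
    have h1 : Tendsto f (𝓝[≠] x) (𝓝 (f x)) := (hf.tendsto x).mono_left nhdsWithin_le_nhds
    have h2 : Tendsto f (𝓝[≠] x) (𝓝 (g x)) := by
      refine ((hg.tendsto x).mono_left nhdsWithin_le_nhds).congr' ?_
      filter_upwards [self_mem_nhdsWithin] with s hs using (hfg s hs).symm
    exact tendsto_nhds_unique h1 h2
  have hne : ∀ s : ℝ, s ≠ x → (s : ℂ) - x ≠ 0 := fun s hs =>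
    sub_ne_zero.2 (by exact_mod_cast hs)
  have c1 : Continuous fun s : ℝ => P1 s := hP1.continuous.comp continuous_ofReal
  have c2 : Continuous fun s : ℝ => Q1 s * (ρ s : ℂ) ^ N :=
    (hQ1.continuous.comp continuous_ofReal).mul ((continuous_ofReal.comp hρ).pow N)
  have c3 : Continuous fun s : ℝ => (s : ℂ) - x := continuous_ofReal.sub continuous_const
  rcases lt_trichotomy p q with h1 | h1 | h1
  · exfalso
    obtain ⟨k, hk⟩ := Nat.exists_eq_add_of_lt h1
    have h2 := hlim (fun s => ((s : ℂ) - x) ^ (k + 1) * (Q1 s * (ρ s : ℂ) ^ N)) (fun s => P1 s)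
      ((c3.pow _).mul c2) c1 (fun s hs => by
        have h3 := h s
        rw [hP1f, hQ1f, hk] at h3
        apply mul_left_cancel₀ (pow_ne_zero p (hne s hs))
        linear_combination h3)
    simp only [sub_self, zero_pow (Nat.succ_ne_zero k), zero_mul] at h2
    exact hP10 h2.symm
  · exact h1
  · exfalso
    obtain ⟨k, hk⟩ := Nat.exists_eq_add_of_lt h1
    have h2 := hlim (fun s => ((s : ℂ) - x) ^ (k + 1) * P1 s) (fun s => Q1 s * (ρ s : ℂ) ^ N)
      ((c3.pow _).mul c1) c2 (fun s hs => by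
        have h3 := h s
        rw [hP1f, hQ1f, hk] at h3
        apply mul_left_cancel₀ (pow_ne_zero q (hne s hs))
        linear_combination -h3)
    simp only [sub_self, zero_pow (Nat.succ_ne_zero k), zero_mul] at h2
    exact mul_ne_zero hQ10 hρN h2.symm

/-- If `Q ρ^N = P`, then the meromorphic function `P / Q` has no zeros, and all its poles are of
order at least `N`. -/
theorem orders {γ : ℝ → ℂ} {ρ : ℝ → ℝ} (hO : IsOval γ ρ) (hC : Con γ) {N : ℕ} (hN : N ≠ 0)
    {P Q : ℂ → ℂ} (hP : Differentiable ℂ P) (hQ : Differentiable ℂ Q) (hQ0 : ∃ z, Q z ≠ 0)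
    (h : ∀ x : ℝ, Q x * (ρ x : ℂ) ^ N = P x) (z : ℂ) :
    analyticOrderAt P z = analyticOrderAt Q z ∨
      analyticOrderAt P z + N ≤ analyticOrderAt Q z := by
  have hP0 : ∃ z, P z ≠ 0 := by
    obtain ⟨x, hx⟩ := real_ne hQ hQ0
    refine ⟨x, ?_⟩
    rw [← h x]
    exact mul_ne_zero hx (pow_ne_zero N (by exact_mod_cast (hO.pos x).ne'))
  obtain ⟨p, hp⟩ := order_ne_top hP hP0 z
  obtain ⟨q, hq⟩ := order_ne_top hQ hQ0 z
  rcases eq_or_ne z.im 0 with hz | hz
  · left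
    have hz' : z = (z.re : ℂ) := by apply Complex.ext <;> simp [hz]
    rw [hz'] at hp hq ⊢
    rw [hp, hq, orders_real hO.cont hO.pos hP hQ h hp hq]
  · rcases Nat.lt_or_ge q (p + N) with h1 | h1
    · left
      obtain ⟨G, hG, hGP, hG0⟩ := local_root hO hC hN (c := fun _ => 0) (differentiable_const _)
        hP hQ hP0 hQ0 (fun x => by simpa using h x) hz hp hq h1
      rw [zero_add] at hG0
      have h2 : analyticOrderAt P z = analyticOrderAt (G ^ N * Q) z :=
        analyticOrderAt_congr (by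
          filter_upwards [hGP] with s hs
          simp [hs])
      rw [h2, analyticOrderAt_mul (hG.pow N) (hQ.analyticAt z), analyticOrderAt_pow hG,
        hG.analyticOrderAt_eq_zero.2 hG0]
      simp
    · right
      rw [hp, hq]
      exact_mod_cast h1

/-- the quotient of two entire functions of the same orders -/
lemma quot {P Q : ℂ → ℂ} (hP : Differentiable ℂ P) (hQ : Differentiable ℂ Q)
    (hQ0 : ∃ z, Q z ≠ 0) (ho : ∀ z, analyticOrderAt P z = analyticOrderAt Q z) :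
    ∃ M : ℂ → ℂ, Differentiable ℂ M ∧ (∀ z, M z ≠ 0) ∧ ∀ z, P z = M z * Q z := by
  have hloc : ∀ z, ∃ m : ℂ → ℂ, AnalyticAt ℂ m z ∧ m z ≠ 0 ∧ ∀ᶠ s in 𝓝 z, P s = m s * Q s := by
    intro z
    obtain ⟨q, hq⟩ := order_ne_top hQ hQ0 z
    obtain ⟨P1, hP1, hP10, hP1f⟩ := fac hP ((ho z).trans hq)
    obtain ⟨Q1, hQ1, hQ10, hQ1f⟩ := fac hQ hq
    refine ⟨fun s => P1 s / Q1 s, (hP1.analyticAt z).fun_div (hQ1.analyticAt z) hQ10,
      div_ne_zero hP10 hQ10, ?_⟩
    filter_upwards [hQ1.continuous.continuousAt.eventually_ne hQ10] with s hs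
    rw [hP1f, hQ1f]
    field_simp
  obtain ⟨M, hM, hMP, hMu⟩ := Pool.Agent.W743.BE.glue (F := P) (G := Q)
    (fun t => hQ.analyticAt t) (fun t ht => by
      obtain ⟨x, hx⟩ := hQ0
      have ha : AnalyticOnNhd ℂ Q univ := fun z _ => hQ.analyticAt z
      exact hx (ha.eqOn_zero_of_preconnected_of_eventuallyEq_zero isPreconnected_univ
        (mem_univ t) ht (mem_univ x)))
    (fun t => by
      obtain ⟨m, h1, -, h3⟩ := hloc t
      exact ⟨m, h1, h3⟩)
  refine ⟨M, hM, fun z => ?_, hMP⟩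
  obtain ⟨m, h1, h2, h3⟩ := hloc z
  rw [(hMu z m h1 h3).self_of_nhds]
  exact h2

/-- If `Q ρ^N = P` with functions `P`, `Q` of small growth and `P / Q` has no poles of order at
least `N`, then the radius of curvature is constant. -/
theorem const {γ : ℝ → ℂ} {ρ : ℝ → ℝ} (hO : IsOval γ ρ) (hper : Function.Periodic ρ (2 * Real.pi))
    (hC : Con γ) {N : ℕ} (hN : N ≠ 0) {σ : ℝ} (hσ0 : 0 ≤ σ) (hσ : σ < 1)
    {P Q : ℂ → ℂ} (hP : Pool.Agent.TH242.MK.Tm σ P) (hQ : Pool.Agent.TH242.MK.Tm σ Q)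
    (hQ0 : ∃ z, Q z ≠ 0) (h : ∀ x : ℝ, Q x * (ρ x : ℂ) ^ N = P x)
    (ho : ∀ z, analyticOrderAt Q z < analyticOrderAt P z + N) : ∃ c : ℝ, ∀ x, ρ x = c := by
  have ho' : ∀ z, analyticOrderAt P z = analyticOrderAt Q z := fun z =>
    (orders hO hC hN hP.1 hQ.1 hQ0 h z).resolve_right (not_le.2 (ho z))
  obtain ⟨M, hM, hM0, hMP⟩ := quot hP.1 hQ.1 hQ0 ho'
  have hreal : ∀ t : ℝ, M t = ((ρ t ^ N : ℝ) : ℂ) := by
    intro t
    push_cast
    have h1 : ∀ᶠ s in 𝓝[≠] (t : ℂ), Q s ≠ 0 := by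
      rcases (hQ.1.analyticAt (t : ℂ)).eventually_eq_zero_or_eventually_ne_zero with h2 | h2
      · exfalso
        obtain ⟨x, hx⟩ := hQ0
        have ha : AnalyticOnNhd ℂ Q univ := fun z _ => hQ.1.analyticAt z
        exact hx (ha.eqOn_zero_of_preconnected_of_eventuallyEq_zero isPreconnected_univ
          (mem_univ (t : ℂ)) h2 (mem_univ x))
      · exact h2
    have h2 : Tendsto (fun x : ℝ => (x : ℂ)) (𝓝[≠] t) (𝓝[≠] (t : ℂ)) := by
      apply tendsto_nhdsWithin_of_tendsto_nhds_of_eventually_within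
      · exact (Complex.continuous_ofReal.tendsto t).mono_left nhdsWithin_le_nhds
      · filter_upwards [self_mem_nhdsWithin] with x hx
        simpa using hx
    have h3 : ∀ᶠ s : ℝ in 𝓝[≠] t, M s - (ρ s : ℂ) ^ N = 0 := by
      filter_upwards [h2.eventually h1] with s hs
      have h4 : (M s - (ρ s : ℂ) ^ N) * Q s = 0 := by
        rw [sub_mul, ← hMP s, ← h s]
        ring
      exact (mul_eq_zero.1 h4).resolve_right hs
    have hcont : Continuous (fun s : ℝ => M s - (ρ s : ℂ) ^ N) :=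
      (hM.continuous.comp continuous_ofReal).sub
        ((continuous_ofReal.comp hO.cont).pow N)
    have h4 : Tendsto (fun s : ℝ => M s - (ρ s : ℂ) ^ N) (𝓝[≠] t)
        (𝓝 (M t - (ρ t : ℂ) ^ N)) := (hcont.tendsto t).mono_left nhdsWithin_le_nhds
    have h5 : Tendsto (fun s : ℝ => M s - (ρ s : ℂ) ^ N) (𝓝[≠] t) (𝓝 0) := by
      refine tendsto_const_nhds.congr' ?_
      filter_upwards [h3] with s hs using hs.symm
    exact sub_eq_zero.1 (tendsto_nhds_unique h4 h5)
  have hExt : Pool.Agent.TH242.MK.Ext (fun x => ρ x ^ N) M :=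
    ⟨hM, hreal, fun x => pow_pos (hO.pos x) N, fun x => by
      show ρ (x + 2 * Real.pi) ^ N = ρ x ^ N
      rw [hper x], hM0⟩
  have hc : ∃ c : ℝ, ∀ x, ρ x ^ N = c := by
    by_contra hcon
    have h1 := Pool.Agent.TH242.MK.few (k := 0) (n := 1) (ρ := fun _ x => ρ x ^ N)
      (R := fun _ => M) (fun _ => hExt) (fun _ => hcon)
      (fun i j hij => absurd (Subsingleton.elim i j) hij) hσ0 hσ (fun i => i.elim0)
      (b := fun _ => Q) (c := fun _ i => i.elim0) (q := fun _ => P) (fun _ => hQ)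
      (fun _ => hQ0) (fun _ i => i.elim0) (fun _ => hP) (fun _ x => by
        simpa using h x)
    exact absurd h1 (by norm_num)
  obtain ⟨c, hc⟩ := hc
  refine ⟨ρ 0, fun x => ?_⟩
  exact (pow_left_inj₀ (hO.pos x).le (hO.pos 0).le hN).1 ((hc x).trans (hc 0).symm)

end Pool.Agent.U818.PC
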