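import Pool.Agent.TH242.MK.OutReg

/-!
Places of complexified ovals: at a regular place the radius of curvature is an analytic function,
without zero, of the normal angle.
-/

set_option autoImplicit false

open Complex Set Metric Filter Topology

namespace Pool.Agent.U818.PC

open H719FX H738CZ

/-- at a regular place the speed is `g (Θ) Θ'` with an analytic function `g` without zero -/
theorem loc {Z W Θ v : ℂ → ℂ} {t0 : ℂ} (hΘa : AnalyticAt ℂ Θ t0)
    (hZ' : ∀ᶠ t in 𝓝 t0, HasDerivAt Z (I * v t * cexp (Θ t * I)) t)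
    (hW' : ∀ᶠ t in 𝓝 t0, HasDerivAt W (-(I * v t * cexp (-(Θ t * I)))) t)
    (hv0 : ¬ ∀ᶠ t in 𝓝 t0, v t = 0) (hR : Reg Z W t0) :
    ∃ g : ℂ → ℂ, AnalyticAt ℂ g (Θ t0) ∧ g (Θ t0) ≠ 0 ∧
      ∀ᶠ t in 𝓝 t0, v t = g (Θ t) * deriv Θ t := by
  obtain ⟨h, A, B, hh, h0, hA, hB, hZ, hW, hwr0⟩ := hR
  have hwr : Wr A B (h t0) ≠ 0 := by rw [h0]; exact hwr0
  rw [← h0] at hA hB
  set a : ℂ → ℂ := fun t => deriv A (h t) with ha
  set b : ℂ → ℂ := fun t => deriv B (h t) with hb
  have haa : AnalyticAt ℂ a t0 := hA.deriv.comp hh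
  have hba : AnalyticAt ℂ b t0 := hB.deriv.comp hh
  have eZ : ∀ᶠ t in 𝓝 t0, I * v t * cexp (Θ t * I) = a t * deriv h t := by
    filter_upwards [TMI_three hA hh hZ, hZ'] with t ht h2
    rw [← h2.deriv]
    exact ht.1
  have eW : ∀ᶠ t in 𝓝 t0, -(I * v t * cexp (-(Θ t * I))) = b t * deriv h t := by
    filter_upwards [TMI_three hB hh hW, hW'] with t ht h2
    rw [← h2.deriv]
    exact ht.1
  -- the function `Ψ` vanishes
  set Ψ : ℂ → ℂ := fun t => a t * cexp (-(Θ t * I)) + b t * cexp (Θ t * I) with hΨ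
  have hE1 : AnalyticAt ℂ (fun t => cexp (Θ t * I)) t0 :=
    (hΘa.fun_mul analyticAt_const).cexp
  have hE2 : AnalyticAt ℂ (fun t => cexp (-(Θ t * I))) t0 :=
    (hΘa.fun_mul analyticAt_const).fun_neg.cexp
  have hΨa : AnalyticAt ℂ Ψ t0 := (haa.fun_mul hE2).fun_add (hba.fun_mul hE1)
  have hprod : ∀ᶠ t in 𝓝 t0, deriv h t * Ψ t = 0 := by
    filter_upwards [eZ, eW] with t h1 h2
    have e1 : cexp (Θ t * I) * cexp (-(Θ t * I)) = 1 := by
      rw [← Complex.exp_add, add_neg_cancel, Complex.exp_zero]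
    have h3 : deriv h t * Ψ t = (a t * deriv h t) * cexp (-(Θ t * I)) +
        (b t * deriv h t) * cexp (Θ t * I) := by
      simp only [hΨ]; ring
    rw [h3, ← h1, ← h2]
    ring
  have hΨ0 : ∀ᶠ t in 𝓝 t0, Ψ t = 0 := by
    rcases hΨa.eventually_eq_zero_or_eventually_ne_zero with h1 | h1
    · exact h1
    · exfalso
      apply hv0
      have h2 : ∀ᶠ t in 𝓝[≠] t0, deriv h t = 0 := by
        filter_upwards [h1, hprod.filter_mono nhdsWithin_le_nhds] with t h2 h3
        exact (mul_eq_zero.1 h3).resolve_right h2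
      have h3 : ∀ᶠ t in 𝓝 t0, deriv h t = 0 := by
        rcases hh.deriv.eventually_eq_zero_or_eventually_ne_zero with h4 | h4
        · exact h4
        · obtain ⟨t, h5, h6⟩ := (h2.and h4).exists
          exact absurd h5 h6
      filter_upwards [h3, eZ] with t h4 h5
      rw [h4, mul_zero] at h5
      rcases mul_eq_zero.1 h5 with h6 | h6
      · exact (mul_eq_zero.1 h6).resolve_left I_ne_zero
      · exact absurd h6 (Complex.exp_ne_zero _)
  -- nonvanishing
  have hA0 : deriv A (h t0) ≠ 0 := by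
    intro h1
    have h2 := hΨ0.self_of_nhds
    simp only [hΨ, ha, hb, h1, zero_mul, zero_add] at h2
    have h3 := (mul_eq_zero.1 h2).resolve_right (Complex.exp_ne_zero _)
    apply hwr
    simp only [Wr]
    rw [h1, h3]
    ring
  have hB0 : deriv B (h t0) ≠ 0 := by
    intro h1
    have h2 := hΨ0.self_of_nhds
    simp only [hΨ, ha, hb, h1, zero_mul, add_zero] at h2
    exact hA0 ((mul_eq_zero.1 h2).resolve_right (Complex.exp_ne_zero _))
  -- `h` is a function of `Θ`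
  set L : ℂ → ℂ := fun s => -(deriv A s / deriv B s) with hL
  have hLa : AnalyticAt ℂ L (h t0) := (hA.deriv.fun_div hB.deriv hB0).fun_neg
  have hL' : deriv L (h t0) ≠ 0 := by
    have e1 : HasDerivAt L (-((deriv (deriv A) (h t0) * deriv B (h t0) -
        deriv A (h t0) * deriv (deriv B) (h t0)) / deriv B (h t0) ^ 2)) (h t0) :=
      (hA.deriv.differentiableAt.hasDerivAt.fun_div hB.deriv.differentiableAt.hasDerivAt
        hB0).fun_neg
    rw [e1.deriv]
    refine neg_ne_zero.2 (div_ne_zero (fun h1 => hwr ?_) (pow_ne_zero 2 hB0))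
    simp only [Wr]
    linear_combination -h1
  set r : ℂ → ℂ := hLa.hasStrictDerivAt.localInverse _ _ _ hL' with hr
  have hra : AnalyticAt ℂ r (L (h t0)) := hLa.analyticAt_localInverse hL'
  have hr' : HasStrictDerivAt r (deriv L (h t0))⁻¹ (L (h t0)) :=
    hLa.hasStrictDerivAt.to_localInverse hL'
  have hleft : ∀ᶠ s in 𝓝 (h t0), r (L s) = s :=
    HasStrictDerivAt.eventually_left_inverse hLa.hasStrictDerivAt hL'
  have hbn : ∀ᶠ t in 𝓝 t0, b t ≠ 0 := hba.continuousAt.eventually_ne hB0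
  have hLh : ∀ᶠ t in 𝓝 t0, cexp (2 * Θ t * I) = L (h t) := by
    filter_upwards [hΨ0, hbn] with t h1 h2
    have e1 : cexp (Θ t * I) * cexp (-(Θ t * I)) = 1 := by
      rw [← Complex.exp_add, add_neg_cancel, Complex.exp_zero]
    have e2 : cexp (2 * Θ t * I) = cexp (Θ t * I) * cexp (Θ t * I) := by
      rw [← Complex.exp_add]; ring_nf
    have h3 : a t * cexp (-(Θ t * I)) + b t * cexp (Θ t * I) = 0 := h1
    have h4 : L (h t) = -(a t / b t) := rfl
    rw [h4, e2, eq_comm, neg_eq_iff_eq_neg, div_eq_iff h2]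
    linear_combination cexp (Θ t * I) * h3 - a t * e1
  set φ : ℂ → ℂ := fun x => r (cexp (2 * x * I)) with hφ
  have hE : AnalyticAt ℂ (fun x : ℂ => cexp (2 * x * I)) (Θ t0) := by
    exact (((analyticAt_const.fun_mul analyticAt_id).fun_mul analyticAt_const)).cexp
  have hLt : cexp (2 * Θ t0 * I) = L (h t0) := hLh.self_of_nhds
  have hra' : AnalyticAt ℂ r (cexp (2 * Θ t0 * I)) := by rw [hLt]; exact hra
  have hφa : AnalyticAt ℂ φ (Θ t0) :=
    AnalyticAt.fun_comp (f := fun x : ℂ => cexp (2 * x * I)) (g := r) hra' hE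
  have hφh : ∀ᶠ t in 𝓝 t0, h t = φ (Θ t) := by
    filter_upwards [hLh, hh.continuousAt.eventually hleft] with t h1 h2
    simp only [hφ]
    rw [h1, h2]
  have hφt : φ (Θ t0) = h t0 := hφh.self_of_nhds.symm
  have hφ0 : deriv φ (Θ t0) ≠ 0 := by
    have e1 : HasDerivAt (fun x : ℂ => cexp (2 * x * I)) (cexp (2 * Θ t0 * I) * (2 * 1 * I))
        (Θ t0) := ((((hasDerivAt_id (Θ t0)).const_mul 2)).mul_const I).cexp
    have e2 : HasDerivAt r (deriv L (h t0))⁻¹ (cexp (2 * Θ t0 * I)) := by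
      rw [hLt]; exact hr'.hasDerivAt
    have e3 : HasDerivAt φ ((deriv L (h t0))⁻¹ * (cexp (2 * Θ t0 * I) * (2 * 1 * I))) (Θ t0) :=
      HasDerivAt.comp (Θ t0) e2 e1
    rw [e3.deriv]
    exact mul_ne_zero (inv_ne_zero hL') (mul_ne_zero (Complex.exp_ne_zero _) (by simp))
  refine ⟨fun x => -(I * deriv A (φ x) * deriv φ x * cexp (-(x * I))), ?_, ?_, ?_⟩
  · have e1 : AnalyticAt ℂ (fun x => deriv A (φ x)) (Θ t0) :=
      AnalyticAt.fun_comp (f := φ) (g := deriv A) (by rw [hφt]; exact hA.deriv) hφa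
    exact (((analyticAt_const.fun_mul e1).fun_mul hφa.deriv).fun_mul
      ((analyticAt_id.fun_mul analyticAt_const).fun_neg.cexp)).fun_neg
  · show -(I * deriv A (φ (Θ t0)) * deriv φ (Θ t0) * cexp (-(Θ t0 * I))) ≠ 0
    rw [hφt]
    exact neg_ne_zero.2 (mul_ne_zero (mul_ne_zero (mul_ne_zero I_ne_zero hA0) hφ0)
      (Complex.exp_ne_zero _))
  · filter_upwards [eZ, hφh, TMI_three hφa hΘa hφh] with t h1 h2 h3
    have e1 : cexp (Θ t * I) * cexp (-(Θ t * I)) = 1 := by
      rw [← Complex.exp_add, add_neg_cancel, Complex.exp_zero]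
    show v t = -(I * deriv A (φ (Θ t)) * deriv φ (Θ t) * cexp (-(Θ t * I))) * deriv Θ t
    rw [h3.1] at h1
    have h4 : a t = deriv A (φ (Θ t)) := by rw [← h2]
    rw [h4] at h1
    linear_combination (-I * cexp (-(Θ t * I))) * h1 - v t * e1 +
      (v t * cexp (Θ t * I) * cexp (-(Θ t * I))) * I_sq

end Pool.Agent.U818.PC
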