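import Pool.Agent.U818.PC.Fac

/-!
Real entire functions which map the segment from `0` to `i` to a curve from the real line to a given
point, with prescribed ramification there, avoiding a countable set.
-/

set_option autoImplicit false

open Complex Set Metric Filter Topology

namespace Pool.Agent.U818.PC

/-- the primitive of `(ζ² + 1)^n` -/
lemma prim_base (n : ℕ) : ∃ (S : ℂ → ℂ) (s : ℝ → ℝ), S 0 = 0 ∧
    (∀ w, HasDerivAt S ((w ^ 2 + 1) ^ n) w) ∧ (∀ x : ℝ, (S x).im = 0) ∧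
    (∀ y : ℝ, S (I * y) = I * s y) ∧ s 0 = 0 ∧ 0 < s 1 ∧
    ∀ y ∈ Ico (0 : ℝ) 1, 0 ≤ s y ∧ s y < s 1 := by
  obtain ⟨S, hS, hS0⟩ := Pool.Agent.TH242.MK.prim (f := fun w => (w ^ 2 + 1) ^ n)
    (by fun_prop) 0
  have h1 : ∀ x : ℝ, HasDerivAt (fun x : ℝ => (S x).im) 0 x := by
    intro x
    have h2 : HasDerivAt (fun x : ℝ => (S x).im) (((x : ℂ) ^ 2 + 1) ^ n).im x :=
      Complex.imCLM.hasFDerivAt.comp_hasDerivAt x (hS x).comp_ofReal
    have h3 : (((x : ℂ) ^ 2 + 1) ^ n) = (((x ^ 2 + 1) ^ n : ℝ) : ℂ) := by push_cast; rfl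
    rw [h3, ofReal_im] at h2
    exact h2
  have h2 : ∀ y : ℝ, HasDerivAt (fun y : ℝ => S (I * y)) (I * (((1 - y ^ 2) ^ n : ℝ) : ℂ)) y := by
    intro y
    have h3 : HasDerivAt (fun y : ℝ => I * (y : ℂ)) (I * 1) y :=
      ((hasDerivAt_id y).ofReal_comp).const_mul I
    refine (HasDerivAt.comp y (hS (I * y)) h3).congr_deriv ?_
    push_cast
    rw [mul_pow, I_sq]
    ring_nf
  have h3 : ∀ y : ℝ, HasDerivAt (fun y : ℝ => (S (I * y)).re) 0 y := by
    intro y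
    have h4 : HasDerivAt (fun y : ℝ => (S (I * y)).re) (I * (((1 - y ^ 2) ^ n : ℝ) : ℂ)).re y :=
      Complex.reCLM.hasFDerivAt.comp_hasDerivAt y (h2 y)
    have h5 : (I * (((1 - y ^ 2) ^ n : ℝ) : ℂ)).re = 0 := by
      rw [Complex.mul_re, I_re, I_im, ofReal_re, ofReal_im]
      ring
    rwa [h5] at h4
  have h4 : ∀ y : ℝ, HasDerivAt (fun y : ℝ => (S (I * y)).im) ((1 - y ^ 2) ^ n) y := by
    intro y
    have h4 : HasDerivAt (fun y : ℝ => (S (I * y)).im) (I * (((1 - y ^ 2) ^ n : ℝ) : ℂ)).im y :=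
      Complex.imCLM.hasFDerivAt.comp_hasDerivAt y (h2 y)
    have h5 : (I * (((1 - y ^ 2) ^ n : ℝ) : ℂ)).im = (1 - y ^ 2) ^ n := by
      rw [Complex.mul_im, I_re, I_im, ofReal_re, ofReal_im]
      ring
    rwa [h5] at h4
  have hmono : StrictMonoOn (fun y : ℝ => (S (I * y)).im) (Icc 0 1) := by
    refine strictMonoOn_of_deriv_pos (convex_Icc 0 1)
      (fun y _ => (h4 y).continuousAt.continuousWithinAt) (fun y hy => ?_)
    rw [interior_Icc] at hy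
    rw [(h4 y).deriv]
    have : 0 < 1 - y ^ 2 := by nlinarith [hy.1, hy.2]
    positivity
  have e0 : (S (I * (0 : ℝ))).im = 0 := by simp [hS0]
  refine ⟨S, fun y => (S (I * y)).im, hS0, hS, fun x => ?_, fun y => ?_, e0, ?_, fun y hy => ?_⟩
  · have := is_const_of_deriv_eq_zero (fun t => (h1 t).differentiableAt) (fun t => (h1 t).deriv) x 0
    rw [this]
    simp [hS0]
  · have h5 := is_const_of_deriv_eq_zero (fun t => (h3 t).differentiableAt)
      (fun t => (h3 t).deriv) y 0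
    have h6 : (S (I * y)).re = 0 := by
      rw [h5]
      simp [hS0]
    apply Complex.ext <;> simp [h6]
  · have := hmono (left_mem_Icc.2 zero_le_one) (right_mem_Icc.2 zero_le_one) zero_lt_one
    simpa only [e0] using this
  · refine ⟨?_, hmono ⟨hy.1, hy.2.le⟩ (right_mem_Icc.2 zero_le_one) hy.2⟩
    have := hmono.monotoneOn (left_mem_Icc.2 zero_le_one) ⟨hy.1, hy.2.le⟩ hy.1
    simpa only [e0] using this

/-- the curves -/
lemma path {N : ℕ} (hN : N ≠ 0) {z0 : ℂ} (hz0 : z0.im ≠ 0) {B : Set ℂ} (hB : B.Countable) :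
    ∃ Θ Ω : ℂ → ℂ, Differentiable ℂ Θ ∧ Differentiable ℂ Ω ∧ (∀ x : ℝ, (Θ x).im = 0) ∧
      (∀ w, deriv Θ w = (w - I) ^ (N - 1) * Ω w) ∧ Ω I ≠ 0 ∧ Θ I = z0 ∧ deriv Θ 0 ≠ 0 ∧
      ∀ y ∈ Ico (0 : ℝ) 1, Θ (I * y) ∉ B ∧ Θ (I * y) ≠ z0 := by
  obtain ⟨S, s, hS0, hS, hSr, hSi, hs0, hs1, hs⟩ := prim_base (N - 1)
  obtain ⟨a, ha⟩ : ∃ a : ℝ, a = z0.im := ⟨_, rfl⟩
  obtain ⟨C, hC⟩ : ∃ C : ℝ, C = a / s 1 := ⟨_, rfl⟩
  have ha0 : a ≠ 0 := by rw [ha]; exact hz0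
  have hC0 : C ≠ 0 := by rw [hC]; exact div_ne_zero ha0 hs1.ne'
  have hCs : C * s 1 = a := by rw [hC, div_mul_cancel₀ _ hs1.ne']
  have hlt : ∀ y ∈ Ico (0 : ℝ) 1, a ^ 2 - (C * s y) ^ 2 ≠ 0 := by
    intro y hy h
    obtain ⟨h1, h2⟩ := hs y hy
    have h3 : C ^ 2 * (s 1 ^ 2 - s y ^ 2) = 0 := by rw [← hCs] at h; linarith
    have h4 : 0 < s 1 ^ 2 - s y ^ 2 := by nlinarith
    exact (mul_ne_zero (pow_ne_zero 2 hC0) h4.ne') h3
  have hbad : ((fun ζ : ℂ => (ζ.re - z0.re) / (a ^ 2 - ζ.im ^ 2)) '' B).Countable := hB.image _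
  obtain ⟨β, hβ⟩ : ∃ β : ℝ, β ∉ (fun ζ : ℂ => (ζ.re - z0.re) / (a ^ 2 - ζ.im ^ 2)) '' B := by
    by_contra hcon
    push Not at hcon
    have h1 : (univ : Set ℝ) ⊆ (fun ζ : ℂ => (ζ.re - z0.re) / (a ^ 2 - ζ.im ^ 2)) '' B :=
      fun x _ => hcon x
    exact Set.not_countable_univ (hbad.mono h1)
  have hSd : Differentiable ℂ S := fun w => (hS w).differentiableAt
  obtain ⟨Θ, hΘ⟩ : ∃ Θ : ℂ → ℂ, ∀ w, Θ w = z0.re + C * S w + β * ((C * S w) ^ 2 + a ^ 2) :=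
    ⟨_, fun _ => rfl⟩
  have hΘf : Θ = fun w => z0.re + C * S w + β * ((C * S w) ^ 2 + a ^ 2) := funext hΘ
  have hΘ' : ∀ w, HasDerivAt Θ ((w - I) ^ (N - 1) *
      ((w + I) ^ (N - 1) * (C * (1 + 2 * β * (C * S w))))) w := by
    intro w
    rw [hΘf]
    have h1 : HasDerivAt (fun w => (C : ℂ) * S w) (C * (w ^ 2 + 1) ^ (N - 1)) w :=
      (hS w).const_mul _
    have h2 := (h1.const_add (z0.re : ℂ)).add (((h1.pow 2).add_const ((a : ℂ) ^ 2)).const_mul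
      (β : ℂ))
    refine h2.congr_deriv ?_
    have e1 : (w ^ 2 + 1) ^ (N - 1) = (w - I) ^ (N - 1) * (w + I) ^ (N - 1) := by
      rw [← mul_pow]
      congr 1
      linear_combination I_sq
    rw [e1]
    push_cast
    ring
  have hIy : ∀ y : ℝ, Θ (I * y) =
      ((z0.re + β * (a ^ 2 - (C * s y) ^ 2) : ℝ) : ℂ) + ((C * s y : ℝ) : ℂ) * I := by
    intro y
    rw [hΘ, hSi]
    push_cast
    linear_combination (β * C ^ 2 * s y ^ 2 : ℂ) * I_sq
  have hI1 : Θ I = z0 := by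
    have h1 := hIy 1
    rw [ofReal_one, mul_one] at h1
    rw [h1, hCs, sub_self, mul_zero, add_zero, ha, re_add_im]
  refine ⟨Θ, fun w => (w + I) ^ (N - 1) * (C * (1 + 2 * β * (C * S w))),
    fun w => (hΘ' w).differentiableAt, by fun_prop, fun x => ?_, fun w => (hΘ' w).deriv, ?_, hI1,
    ?_, fun y hy => ?_⟩
  · have h1 : S x = ((S x).re : ℂ) := by
      apply Complex.ext <;> simp [hSr x]
    rw [hΘ, h1]
    have h2 : (z0.re : ℂ) + C * ((S x).re : ℂ) + β * ((C * ((S x).re : ℂ)) ^ 2 + a ^ 2) =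
        ((z0.re + C * (S x).re + β * ((C * (S x).re) ^ 2 + a ^ 2) : ℝ) : ℂ) := by
      push_cast; rfl
    rw [h2, ofReal_im]
  · have h1 : S I = I * s 1 := by
      have := hSi 1
      rwa [ofReal_one, mul_one] at this
    have hCC : (C : ℂ) ≠ 0 := by exact_mod_cast hC0
    have h2 : (1 : ℂ) + 2 * β * (C * S I) ≠ 0 := by
      intro h3
      have h4 := congrArg Complex.re h3
      rw [h1] at h4
      have h5 : (1 : ℂ) + 2 * β * (C * (I * s 1)) = ((1 : ℝ) : ℂ) + ((2 * β * (C * s 1) : ℝ) : ℂ) * I := by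
        push_cast; ring
      rw [h5, add_re, ofReal_re, re_ofReal_mul, I_re, mul_zero, add_zero] at h4
      simp at h4
    have h3 : (I + I : ℂ) ≠ 0 := by
      rw [← two_mul]
      exact mul_ne_zero two_ne_zero I_ne_zero
    exact mul_ne_zero (pow_ne_zero _ h3) (mul_ne_zero hCC h2)
  · rw [(hΘ' 0).deriv, hS0, mul_zero, mul_zero, add_zero, mul_one]
    have hCC : (C : ℂ) ≠ 0 := by exact_mod_cast hC0
    refine mul_ne_zero (pow_ne_zero _ ?_) (mul_ne_zero (pow_ne_zero _ ?_) hCC)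
    · rw [zero_sub]; exact neg_ne_zero.2 I_ne_zero
    · rw [zero_add]; exact I_ne_zero
  · have him : (Θ (I * y)).im = C * s y := by
      rw [hIy y, add_im, ofReal_im, im_ofReal_mul, I_im, mul_one, zero_add]
    have hre : (Θ (I * y)).re = z0.re + β * (a ^ 2 - (C * s y) ^ 2) := by
      rw [hIy y, add_re, ofReal_re, re_ofReal_mul, I_re, mul_zero, add_zero]
    constructor
    · intro hmem
      refine hβ ⟨_, hmem, ?_⟩
      show ((Θ (I * y)).re - z0.re) / (a ^ 2 - (Θ (I * y)).im ^ 2) = β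
      rw [him, hre]
      rw [add_sub_cancel_left, mul_div_assoc, div_self (hlt y hy), mul_one]
    · intro h
      have h1 := congrArg Complex.im h
      rw [him] at h1
      refine hlt y hy ?_
      rw [h1, ← ha, sub_self]

end Pool.Agent.U818.PC
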