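import Pool.Agent.U818.PC.Path

/-!
Ovals whose radius of curvature is a root of a meromorphic function: the local statement at a
complex place.
-/

set_option autoImplicit false

open Complex Set Metric Filter Topology

namespace Pool.Agent.U818.PC

open H719FX H738CZ

/-- If `Q (ρ - c)^N = P` on the real line and `q < p + N`, where `p` and `q` are the orders of `P`
and `Q` at `z0`, then near `z0` there is an analytic function `G` with `G^N Q = P`, and `c + G` does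
not vanish at `z0`. -/
theorem local_root {γ : ℝ → ℂ} {ρ : ℝ → ℝ} (hO : IsOval γ ρ) (hC : Con γ) {N : ℕ} (hN : N ≠ 0)
    {c P Q : ℂ → ℂ} (hc : Differentiable ℂ c) (hP : Differentiable ℂ P)
    (hQ : Differentiable ℂ Q) (hP0 : ∃ z, P z ≠ 0) (hQ0 : ∃ z, Q z ≠ 0)
    (h : ∀ x : ℝ, Q x * (ρ x - c x) ^ N = P x) {z0 : ℂ} (hz0 : z0.im ≠ 0) {p q : ℕ}
    (hp : analyticOrderAt P z0 = p) (hq : analyticOrderAt Q z0 = q) (hpq : q < p + N) :
    ∃ G : ℂ → ℂ, AnalyticAt ℂ G z0 ∧ (∀ᶠ z in 𝓝 z0, G z ^ N * Q z = P z) ∧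
      c z0 + G z0 ≠ 0 := by
  obtain ⟨P1, hP1, hP10, hP1f⟩ := fac hP hp
  obtain ⟨Q1, hQ1, hQ10, hQ1f⟩ := fac hQ hq
  have hB : ({z | P z = 0} ∪ {z | Q z = 0}).Countable := by
    obtain ⟨x, hx⟩ := hP0
    obtain ⟨y, hy⟩ := hQ0
    exact (countable_zeros P hP x hx).union (countable_zeros Q hQ y hy)
  obtain ⟨Θ, Ω, hΘ, hΩ, hΘr, hΘ', hΩI, hΘI, hΘ0, hav⟩ := path hN hz0 hB
  have hord : analyticOrderAt (fun w => Θ w - z0) I = N := by
    have h1 := (hΘ.analyticAt I).analyticOrderAt_deriv_add_one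
    rw [hΘI] at h1
    have h2 : analyticOrderAt (deriv Θ) I = (N - 1 : ℕ) :=
      ((hΘ.analyticAt I).deriv.analyticOrderAt_eq_natCast).2 ⟨Ω, hΩ.analyticAt I, hΩI,
        Filter.Eventually.of_forall fun w => by rw [hΘ' w, smul_eq_mul]⟩
    rw [h2] at h1
    rw [← h1]
    obtain ⟨k, rfl⟩ := Nat.exists_eq_succ_of_ne_zero hN
    simp
  obtain ⟨Ψ, hΨ, hΨI, hΨf⟩ := fac (f := fun w => Θ w - z0) (hΘ.sub_const z0) hord
  have hfP : ∀ w, P (Θ w) = ((w - I) ^ N * Ψ w) ^ p * P1 (Θ w) := fun w => by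
    rw [hP1f, hΨf w]
  have hfQ : ∀ w, Q (Θ w) = ((w - I) ^ N * Ψ w) ^ q * Q1 (Θ w) := fun w => by
    rw [hQ1f, hΨf w]
  -- the domain
  obtain ⟨V, hV⟩ : ∃ V : Set ℂ, V = {w | P1 (Θ w) * Q1 (Θ w) * Ψ w ≠ 0} := ⟨_, rfl⟩
  have hVo : IsOpen V := by
    rw [hV]
    exact isOpen_ne_fun (((hP1.continuous.comp hΘ.continuous).mul
      (hQ1.continuous.comp hΘ.continuous)).mul hΨ.continuous) continuous_const
  have hseg : segment ℝ (0 : ℂ) I ⊆ V := by
    rw [segment_eq_image']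
    rintro _ ⟨y, hy, rfl⟩
    have e : (0 : ℂ) + y • (I - 0) = I * y := by
      rw [sub_zero, zero_add, Complex.real_smul, mul_comm]
    show (0 : ℂ) + y • (I - 0) ∈ V
    rw [e, hV]
    show P1 (Θ (I * y)) * Q1 (Θ (I * y)) * Ψ (I * y) ≠ 0
    rcases eq_or_lt_of_le hy.2 with h1 | h1
    · rw [h1, ofReal_one, mul_one, hΘI]
      exact mul_ne_zero (mul_ne_zero hP10 hQ10) hΨI
    · obtain ⟨h2, h3⟩ := hav y ⟨hy.1, h1⟩
      have h4 : P (Θ (I * y)) ≠ 0 := fun h5 => h2 (Or.inl h5)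
      have h5 : Q (Θ (I * y)) ≠ 0 := fun h5 => h2 (Or.inr h5)
      rw [hP1f] at h4
      rw [hQ1f] at h5
      have h6 : Θ (I * y) - z0 ≠ 0 := sub_ne_zero.2 h3
      rw [hΨf] at h6
      exact mul_ne_zero (mul_ne_zero (right_ne_zero_of_mul h4) (right_ne_zero_of_mul h5))
        (right_ne_zero_of_mul h6)
  have hcomp : IsCompact (segment ℝ (0 : ℂ) I) := by
    rw [segment_eq_image_lineMap]
    exact isCompact_Icc.image AffineMap.lineMap_continuous
  obtain ⟨δ, hδ, hthick⟩ := hcomp.exists_thickening_subset_open hVo hseg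
  obtain ⟨T, hT⟩ : ∃ T : Set ℂ, T = thickening δ (segment ℝ (0 : ℂ) I) := ⟨_, rfl⟩
  have hTc : Convex ℝ T := by rw [hT]; exact (convex_segment 0 I).thickening δ
  have hTo : IsOpen T := by rw [hT]; exact isOpen_thickening
  have h0T : (0 : ℂ) ∈ T := by
    rw [hT]; exact self_subset_thickening hδ _ (left_mem_segment ℝ 0 I)
  have hIT : I ∈ T := by
    rw [hT]; exact self_subset_thickening hδ _ (right_mem_segment ℝ 0 I)
  have hTV : ∀ w ∈ T, P1 (Θ w) ≠ 0 ∧ Q1 (Θ w) ≠ 0 ∧ Ψ w ≠ 0 := by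
    intro w hw
    rw [hT] at hw
    have h1 := hthick hw
    rw [hV] at h1
    exact ⟨left_ne_zero_of_mul (left_ne_zero_of_mul h1),
      right_ne_zero_of_mul (left_ne_zero_of_mul h1), right_ne_zero_of_mul h1⟩
  -- the root
  have hPΘ : Differentiable ℂ fun w => P1 (Θ w) := hP1.comp hΘ
  have hQΘ : Differentiable ℂ fun w => Q1 (Θ w) := hQ1.comp hΘ
  have hu0 : ∀ w ∈ T, P1 (Θ w) * Ψ w ^ p / (Q1 (Θ w) * Ψ w ^ q) ≠ 0 := by
    intro w hw
    obtain ⟨h1, h2, h3⟩ := hTV w hw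
    exact div_ne_zero (mul_ne_zero h1 (pow_ne_zero _ h3)) (mul_ne_zero h2 (pow_ne_zero _ h3))
  have hu : DifferentiableOn ℂ (fun w => P1 (Θ w) * Ψ w ^ p / (Q1 (Θ w) * Ψ w ^ q)) T := by
    refine DifferentiableOn.div (hPΘ.mul (hΨ.pow p)).differentiableOn
      (hQΘ.mul (hΨ.pow q)).differentiableOn (fun w hw => ?_)
    obtain ⟨h1, h2, h3⟩ := hTV w hw
    exact mul_ne_zero h2 (pow_ne_zero _ h3)
  obtain ⟨r, hr, hrN⟩ := root_conv hTc hTo hu hu0 hN
  have hr0 : ∀ w ∈ T, r w ≠ 0 := by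
    intro w hw h1
    have h2 := hrN w hw
    rw [h1, zero_pow hN] at h2
    exact hu0 w hw h2.symm
  -- the interval
  obtain ⟨η', hη', hη'T⟩ := Metric.isOpen_iff.1 hTo 0 h0T
  have hJT : ∀ t ∈ Ioo (-η') η', (t : ℂ) ∈ T := by
    intro t ht
    apply hη'T
    rw [mem_ball_zero_iff, Complex.norm_real, Real.norm_eq_abs]
    exact abs_lt.2 ht
  have hre : ∀ t : ℝ, (((Θ t).re : ℝ) : ℂ) = Θ t := by
    intro t
    apply Complex.ext <;> simp [hΘr t]
  have htI : ∀ t : ℝ, (t : ℂ) - I ≠ 0 := by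
    intro t h1
    have h2 := congrArg Complex.im h1
    simp at h2
  obtain ⟨f, hf⟩ : ∃ f : ℝ → ℂ, ∀ t, f t = (ρ (Θ t).re - c (Θ t)) * ((t : ℂ) - I) ^ q /
      (((t : ℂ) - I) ^ p * r t) := ⟨_, fun _ => rfl⟩
  have hf1 : ∀ t ∈ Ioo (-η') η', f t ^ N = 1 := by
    intro t ht
    obtain ⟨h1, h2, h3⟩ := hTV t (hJT t ht)
    have h4 := h (Θ t).re
    rw [hre t, hfQ, hfP] at h4
    have h5 := hrN t (hJT t ht)
    have h6 : Q1 (Θ t) * Ψ t ^ q ≠ 0 := mul_ne_zero h2 (pow_ne_zero _ h3)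
    rw [eq_div_iff h6] at h5
    have h7 : (((t : ℂ) - I) ^ p * r t) ^ N ≠ 0 :=
      pow_ne_zero _ (mul_ne_zero (pow_ne_zero _ (htI t)) (hr0 _ (hJT t ht)))
    rw [hf, div_pow, div_eq_one_iff_eq h7]
    apply mul_right_cancel₀ h6
    have e1 : ((ρ (Θ t).re - c (Θ t)) * ((t : ℂ) - I) ^ q) ^ N * (Q1 (Θ t) * Ψ t ^ q) =
        (((t : ℂ) - I) ^ N * Ψ t) ^ q * Q1 (Θ t) * (ρ (Θ t).re - c (Θ t)) ^ N := by
      rw [mul_pow]
      ring
    have e2 : (((t : ℂ) - I) ^ p * r t) ^ N * (Q1 (Θ t) * Ψ t ^ q) =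
        (((t : ℂ) - I) ^ p) ^ N * (r t ^ N * (Q1 (Θ t) * Ψ t ^ q)) := by ring
    rw [e1, e2, h4, h5]
    ring
  have hfc : ContinuousOn f (Ioo (-η') η') := by
    have hff : f = fun t : ℝ => (ρ (Θ t).re - c (Θ t)) * ((t : ℂ) - I) ^ q /
        (((t : ℂ) - I) ^ p * r t) := funext hf
    rw [hff]
    have c1 : Continuous fun t : ℝ => (ρ (Θ t).re : ℂ) - c (Θ t) :=
      (continuous_ofReal.comp (hO.cont.comp (continuous_re.comp
        (hΘ.continuous.comp continuous_ofReal)))).sub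
        (hc.continuous.comp (hΘ.continuous.comp continuous_ofReal))
    have c2 : Continuous fun t : ℝ => (t : ℂ) - I := continuous_ofReal.sub continuous_const
    have c3 : ContinuousOn (fun t : ℝ => r t) (Ioo (-η') η') :=
      hr.continuousOn.comp continuous_ofReal.continuousOn hJT
    exact ((c1.mul (c2.pow q)).continuousOn).div ((c2.pow p).continuousOn.mul c3)
      (fun t ht => mul_ne_zero (pow_ne_zero _ (htI t)) (hr0 _ (hJT t ht)))
  have h0J : (0 : ℝ) ∈ Ioo (-η') η' := ⟨by linarith, hη'⟩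
  obtain ⟨η, hη⟩ : ∃ η : ℂ, η = f 0 := ⟨_, rfl⟩
  have hfη : ∀ t ∈ Ioo (-η') η', f t = η := by
    intro t ht
    rw [hη]
    have hfin : ({z : ℂ | z ^ N = 1}).Finite := by
      have h1 : {z : ℂ | z ^ N = 1} ⊆ (((Polynomial.X ^ N - 1 : Polynomial ℂ).roots.toFinset :
          Finset ℂ) : Set ℂ) := by
        intro z hz
        have h2 : (Polynomial.X ^ N - 1 : Polynomial ℂ) ≠ 0 :=
          Polynomial.X_pow_sub_C_ne_zero (Nat.pos_of_ne_zero hN) 1
        rw [Finset.mem_coe, Multiset.mem_toFinset, Polynomial.mem_roots h2]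
        simp [Polynomial.IsRoot, sub_eq_zero, show z ^ N = 1 from hz]
      exact (Finset.finite_toSet _).subset h1
    have hdisc : IsDiscrete {z : ℂ | z ^ N = 1} := hfin.isDiscrete
    exact isPreconnected_Ioo.constant_of_mapsTo hdisc hfc (fun t ht => hf1 t ht) ht h0J
  have hηN : η ^ N = 1 := by rw [hη]; exact hf1 0 h0J
  -- the speed
  obtain ⟨v, hv⟩ : ∃ v : ℂ → ℂ, ∀ w, v w = c (Θ w) * deriv Θ w +
      η * ((w - I) ^ (p + N - 1 - q) * r w * Ω w) := ⟨_, fun _ => rfl⟩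
  have hvd : DifferentiableOn ℂ v T := by
    have hvf : v = fun w => c (Θ w) * deriv Θ w + η * ((w - I) ^ (p + N - 1 - q) * r w * Ω w) :=
      funext hv
    rw [hvf]
    have d1 : Differentiable ℂ (deriv Θ) := by
      have : deriv Θ = fun w => (w - I) ^ (N - 1) * Ω w := funext hΘ'
      rw [this]
      fun_prop
    have d2 : Differentiable ℂ fun w => c (Θ w) := hc.comp hΘ
    have d3 : Differentiable ℂ fun w : ℂ => (w - I) ^ (p + N - 1 - q) := by fun_prop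
    exact (d2.mul d1).differentiableOn.add
      (((d3.differentiableOn.mul hr).mul hΩ.differentiableOn).const_mul η)
  have hexp : ∀ w : ℂ, (w - I) ^ (p + N - 1 - q) * (w - I) ^ q =
      (w - I) ^ p * (w - I) ^ (N - 1) := by
    intro w
    rw [← pow_add, ← pow_add]
    congr 1
    have := Nat.pos_of_ne_zero hN
    omega
  have hJ : ∀ t ∈ Ioo (-η') η', (t : ℂ) ∈ T ∧ (Θ t).im = 0 ∧
      v t = ρ (Θ t).re * deriv Θ t := by
    intro t ht
    refine ⟨hJT t ht, hΘr t, ?_⟩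
    have h1 := hfη t ht
    have h2 : ((t : ℂ) - I) ^ p * r t ≠ 0 :=
      mul_ne_zero (pow_ne_zero _ (htI t)) (hr0 _ (hJT t ht))
    rw [hf, div_eq_iff h2] at h1
    rw [hv, hΘ']
    apply mul_right_cancel₀ (pow_ne_zero q (htI t))
    linear_combination (η * r t * Ω t) * hexp t - (((t : ℂ) - I) ^ (N - 1) * Ω t) * h1
  obtain ⟨g, hg, hg0, hgv⟩ := place hO hC hTc hTo hΘ.differentiableOn hvd hJ
    ⟨0, h0J, by simpa using hΘ0⟩ hIT
  rw [hΘI] at hg hg0
  -- the local root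
  have hGa : AnalyticAt ℂ (fun z => g z - c z) z0 := hg.fun_sub (hc.analyticAt z0)
  refine ⟨fun z => g z - c z, hGa, ?_, by simpa using hg0⟩
  have hD : AnalyticAt ℂ (fun z => (g z - c z) ^ N * Q z - P z) z0 :=
    ((hGa.fun_pow N).fun_mul (hQ.analyticAt z0)).fun_sub (hP.analyticAt z0)
  have hDΘ : ∀ᶠ w in 𝓝[≠] I, (g (Θ w) - c (Θ w)) ^ N * Q (Θ w) - P (Θ w) = 0 := by
    filter_upwards [self_mem_nhdsWithin, hgv.filter_mono nhdsWithin_le_nhds,
      (hΩ.continuous.continuousAt.eventually_ne hΩI).filter_mono nhdsWithin_le_nhds,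
      nhdsWithin_le_nhds (hTo.mem_nhds hIT)] with w h1 h2 h3 h4
    have hwI : w - I ≠ 0 := sub_ne_zero.2 h1
    obtain ⟨a1, a2, a3⟩ := hTV w h4
    rw [hv, hΘ'] at h2
    have h5 : η * ((w - I) ^ p * r w) = (g (Θ w) - c (Θ w)) * (w - I) ^ q := by
      apply mul_right_cancel₀ (mul_ne_zero (pow_ne_zero (N - 1) hwI) h3)
      linear_combination (w - I) ^ q * h2 - (η * r w * Ω w) * hexp w
    have h6 : (w - I) ^ (p * N) * r w ^ N = (g (Θ w) - c (Θ w)) ^ N * (w - I) ^ (q * N) := by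
      have h7 := congrArg (fun x => x ^ N) h5
      simp only [mul_pow] at h7
      rw [hηN, one_mul, ← pow_mul, ← pow_mul] at h7
      exact h7
    have h8 := hrN w h4
    rw [eq_div_iff (mul_ne_zero a2 (pow_ne_zero _ a3))] at h8
    rw [hfQ, hfP]
    have e1 : (g (Θ w) - c (Θ w)) ^ N * (((w - I) ^ N * Ψ w) ^ q * Q1 (Θ w)) =
        ((g (Θ w) - c (Θ w)) ^ N * (w - I) ^ (q * N)) * (Q1 (Θ w) * Ψ w ^ q) := by ring
    rw [e1, ← h6]
    have e2 : (w - I) ^ (p * N) * r w ^ N * (Q1 (Θ w) * Ψ w ^ q) =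
        (w - I) ^ (p * N) * (r w ^ N * (Q1 (Θ w) * Ψ w ^ q)) := by ring
    rw [e2, h8]
    ring
  have hΘt : Tendsto Θ (𝓝[≠] I) (𝓝[≠] z0) := by
    apply tendsto_nhdsWithin_of_tendsto_nhds_of_eventually_within
    · have h1 := (hΘ.continuous.tendsto I).mono_left (nhdsWithin_le_nhds (s := {I}ᶜ))
      rwa [hΘI] at h1
    · filter_upwards [self_mem_nhdsWithin,
        (hΨ.continuous.continuousAt.eventually_ne hΨI).filter_mono nhdsWithin_le_nhds]
        with w h1 h2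
      intro h3
      have h4 : Θ w - z0 = 0 := sub_eq_zero.2 h3
      rw [hΨf] at h4
      exact mul_ne_zero (pow_ne_zero N (sub_ne_zero.2 h1)) h2 h4
  rcases hD.eventually_eq_zero_or_eventually_ne_zero with h1 | h1
  · filter_upwards [h1] with z hz using sub_eq_zero.1 hz
  · exfalso
    obtain ⟨w, h2, h3⟩ := ((hΘt.eventually h1).and hDΘ).exists
    exact h2 h3

end Pool.Agent.U818.PC
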